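import Pool.Agent.H87.TrR1

namespace Pool.Agent.Results.MP_15aca8_an.NoSSD

open Filter Topology

/-- In ZFC there is a real Asplund space none of whose equivalent norms is strongly
subdifferentiable at every point. -/
theorem result : ∃ (X : Type) (_ : NormedAddCommGroup X) (_ : NormedSpace ℝ X),
    CompleteSpace X ∧
    (∀ Y : Submodule ℝ X, TopologicalSpace.SeparableSpace Y →
      TopologicalSpace.SeparableSpace (Y →L[ℝ] ℝ)) ∧
    ∀ N : Seminorm ℝ X, (∃ a b : ℝ, 0 < a ∧ a ≤ b ∧ ∀ x, a * ‖x‖ ≤ N x ∧ N x ≤ b * ‖x‖) →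
      ¬ ∀ x : X, ∃ L : X → ℝ, TendstoUniformlyOn (fun (t : ℝ) (h : X) => (N (x + t • h) - N x) / t) L
        (𝓝[>] 0) {h | N h = 1} := by
  refine ⟨H87.TrR.X, inferInstance, inferInstance, inferInstance,
    H87.Scat.asplund H87.TrR.scattered, fun N ⟨a, b, a0, ab, hN⟩ h => ?_⟩
  have b0 := a0.trans_le ab
  have h2 : ∀ x, N x = 0 → x = 0 := fun x e => norm_le_zero_iff.1
    (le_of_mul_le_mul_left (by rw [mul_zero, ← e]; exact (hN x).1) a0)
  obtain ⟨y, -, c, c0, h6⟩ := H87.TrR.rough b0 (fun x => (hN x).2) h2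
  obtain ⟨L, hL⟩ := h y
  obtain ⟨ρ, ρ0, h7⟩ := Metric.eventually_nhds_iff.1 (eventually_nhdsWithin_iff.1
    (Metric.tendstoUniformlyOn_iff.1 hL (c / b / 4) (by positivity)))
  set s := min (ρ / 2) (a / 2) with hs
  have s0 : 0 < s := by positivity
  obtain ⟨k, k0, k1, k2, k3⟩ := h6 (min (ρ / 2 / b) (c / b / 4 * s)) (by positivity)
  have k4 : 0 < N k := (apply_nonneg N k).lt_of_ne' fun e => k0 (h2 k e)
  have k5 : N ((N k)⁻¹ • k) = 1 := by
    rw [map_smul_eq_mul, Real.norm_of_nonneg (by positivity), inv_mul_cancel₀ k4.ne']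
  have a1 := h7 (y := N k) (by
    rw [dist_zero_right, Real.norm_of_nonneg k4.le]
    linarith [(hN k).2, (le_div_iff₀' b0).1 (k1.trans (min_le_left _ _))]) k4 _ k5
  have a2 := h7 (y := s) (by
    rw [dist_zero_right, Real.norm_of_nonneg s0.le]; linarith [min_le_left (ρ / 2) (a / 2)]) s0 _ k5
  have a3 := k3 (s * (N k)⁻¹) (le_of_mul_le_mul_left ((hN _).1.trans (by
    rw [mul_smul, map_smul_eq_mul, k5, Real.norm_of_nonneg s0.le]
    linarith [min_le_right (ρ / 2) (a / 2)])) a0)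
  rw [smul_inv_smul₀ k4.ne', Real.dist_eq, abs_lt] at a1
  rw [← mul_smul, Real.dist_eq, abs_lt] at a2
  have a4 : (N (y + k) - N y) / N k ≤ -(c / b) := by
    rw [div_le_iff₀ k4, neg_mul, div_mul_eq_mul_div, le_neg, div_le_iff₀ b0]
    nlinarith [(hN k).2]
  have a5 : -(c / b / 4) ≤ (N (y + (s * (N k)⁻¹) • k) - N y) / s := by
    rw [le_div_iff₀ s0]; linarith [min_le_right (ρ / 2 / b) (c / b / 4 * s)]
  linarith [div_pos c0 b0]

end Pool.Agent.Results.MP_15aca8_an.NoSSD
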